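import Pool.Agent.L5helper75.AP.Run

set_option autoImplicit false

/-! The constructed function does not compute `C`. -/

namespace Pool.Agent.L5helper75.AP

open Nat.Partrec (Code)
open Filter
open Pool.Agent.Helper743
open Pool.Agent.Helper743.PR (evT evR evR_spec ev_list)
open Pool.Agent.Helper743.AC (outp outp_p outp_pre pre_outp ev_code pre_take DL DL_p DL_encode
  lst)
open Pool.Agent.H166R3.AT

variable (Y : ℕ → ℕ) (C : ℕ → Bool)

/-- the first components of the entries agree with the entries of `β` -/
def conB (β σ : List ℕ) : Bool :=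
  ball σ.length (fun i => decide (i < β.length ∧ ((σ[i]?).getD 0).unpair.1 = (β[i]?).getD 0))

lemma conB_iff {n : ℕ} {σ : List ℕ} : conB (pre Y n) σ = true ↔ σ.length ≤ n ∧ Con Y σ := by
  unfold conB
  rw [ball_iff]
  constructor
  · intro h
    refine ⟨?_, fun i hi => ?_⟩
    · by_contra hlt
      push Not at hlt
      have h1 := h n hlt
      rw [decide_eq_true_iff, pre_length] at h1
      omega
    · have h1 := h i hi
      rw [decide_eq_true_iff, pre_length, pre_getElem?] at h1
      rw [h1.2, if_pos h1.1]
      rfl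
  · rintro ⟨h1, h2⟩ i hi
    rw [decide_eq_true_iff, pre_length, pre_getElem?, if_pos (by omega)]
    exact ⟨by omega, h2 i hi⟩

lemma conB_c {α : Type*} [Primcodable α] {f g : α → List ℕ} (hf : Computable f)
    (hg : Computable g) : Computable (fun a => conB (f a) (g a)) := by
  refine c_ball (Computable.list_length.comp hg) ?_
  have h1 : Computable (fun q : α × ℕ => decide (q.2 < (f q.1).length)) :=
    c_lt Computable.snd (Computable.list_length.comp (hf.comp Computable.fst))
  have h2 : Computable (fun q : α × ℕ => decide ((((g q.1)[q.2]?).getD 0).unpair.1 =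
      ((f q.1)[q.2]?).getD 0)) := by
    refine c_eq ?_ ?_
    · exact Computable.fst.comp (Computable.unpair.comp (Computable.option_getD
        (Computable.list_getElem?.comp (hg.comp Computable.fst) Computable.snd)
        (Computable.const 0)))
    · exact Computable.option_getD
        (Computable.list_getElem?.comp (hf.comp Computable.fst) Computable.snd)
        (Computable.const 0)
  refine (c_and h1 h2).of_eq ?_
  rintro ⟨a, i⟩
  simp only [Bool.decide_and]

attribute [local irreducible] DL al outp conB

noncomputable def pF (e : ℕ) (σ : List ℕ) (β : List ℕ) (q w : ℕ) : Option ℕ :=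
  open Classical in
  bif (conB β (σ ++ (DL w).1) && decide (al e σ (DL w).1)) &&
    decide (outp e (σ ++ (DL w).1) q (DL w).2)
  then some (DL w).2 else none

lemma pF_c (e : ℕ) (σ : List ℕ) :
    Computable (fun q : (List ℕ × ℕ) × ℕ => pF e σ q.1.1 q.1.2 q.2) := by
  classical
  have w : Primrec (fun q : (List ℕ × ℕ) × ℕ => DL q.2) := DL_p.comp Primrec.snd
  have x : Primrec (fun q : (List ℕ × ℕ) × ℕ => q.1.2) := Primrec.snd.comp Primrec.fst
  have h0 := conB_c (α := (List ℕ × ℕ) × ℕ) (Computable.fst.comp Computable.fst)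
    (Primrec.list_append.comp (Primrec.const σ) (Primrec.fst.comp w)).to_comp
  have h1 := al_p.comp (((Primrec.const e).pair (Primrec.const σ)).pair (Primrec.fst.comp w))
  have h2 := outp_p.comp (((Primrec.const e).pair (Primrec.list_append.comp (Primrec.const σ)
    (Primrec.fst.comp w))).pair (x.pair (Primrec.snd.comp w)))
  have h3 := Computable.cond (c_and (c_and h0 h1.decide.to_comp) h2.decide.to_comp)
    (Primrec.option_some.comp (Primrec.snd.comp w)).to_comp (Computable.const none)
  exact h3

theorem avoids (hC : ¬ TR (fun n => (C n).toNat) Y) :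
    ¬ TR (fun n => (C n).toNat) (GG Y C) := by
  classical
  intro hTR
  obtain ⟨ev, hev, hmono, hcor⟩ := use_principle (GG Y C) _ hTR
  obtain ⟨e, he⟩ := ev_code hev
  have hval : ∀ {n x y}, outp e (pre (GG Y C) n) x y → y = (C x).toNat := by
    intro n x y h
    obtain ⟨j, hj⟩ := outp_pre he h
    have h1 := (hcor x y).2 ⟨j, hj⟩
    exact Part.mem_some_iff.1 h1
  have hnever : ∀ s, ¬ (acts Y C s (runR Y C s) ∧ s.unpair.1 = e) := by
    rintro s ⟨h1, h2⟩
    obtain ⟨_, _, x, y, h3, h4⟩ := rh_good Y C h1
    rw [h2] at h3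
    have h5 : sg Y C s ++ rh Y C s = pre (GG Y C) (sg Y C s ++ rh Y C s).length := by
      have h6 := sg_succ' Y C s
      have h7 := sg_eq_pre Y C (s + 1)
      have h8 : (sg Y C s ++ rh Y C s).length ≤ (sg Y C (s + 1)).length := by
        rw [h6]; simp
      rw [← pre_take (GG Y C) h8, ← h7, h6]
      exact (List.take_left' rfl).symm
    rw [h5] at h3
    exact h4 (hval h3)
  obtain ⟨N, hN⟩ := q_tails Y C e
  -- a late stage for the requirement
  set s := Nat.pair e N with hs
  have hs1 : s.unpair.1 = e := by rw [hs, Nat.unpair_pair]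
  have hs2 : N ≤ (sg Y C s).length := le_trans (Nat.right_le_pair e N) (sg_length Y C s)
  have hnogood : ∀ ρ, ¬ good Y C s (sg Y C s) ρ := by
    intro ρ hd
    apply hnever s
    refine ⟨⟨?_, ρ, hd⟩, hs1⟩
    intro hmem
    obtain ⟨s', h1, h2⟩ := dd_mem Y C (s := s) hmem
    exact hnever s' ⟨h1, by rw [h2, hs1]⟩
  have hConPre : ∀ n, Con Y (pre (GG Y C) n) := by
    intro n i hi
    rw [pre_length] at hi
    rw [pre_getElem?, if_pos hi]
    exact GG_fst Y C i
  have hex : ∀ q, ∀ᶠ n in atTop, ∃ ρ, pre (GG Y C) n = sg Y C s ++ ρ ∧ al e (sg Y C s) ρ ∧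
      outp e (sg Y C s ++ ρ) q (C q).toNat := by
    intro q
    obtain ⟨j, hj⟩ := (hcor q (C q).toNat).1 (Part.mem_some _)
    filter_upwards [pre_outp he hj, eventually_ge_atTop (sg Y C s).length] with n h1 h2
    obtain ⟨ρ, hρ, hr⟩ := pre_split Y C h2
    refine ⟨ρ, hρ, ?_, by rw [← hρ]; exact h1⟩
    rw [al_iff]
    refine ⟨hr, fun i hi => ?_⟩
    have h3 := hN (sg Y C s).length n hs2 h2 i hi
    rw [← sg_eq_pre, hρ] at h3
    exact h3
  apply hC
  refine cert (TR.refl Y) (pF e (sg Y C s)) (pF_c _ _) _ ?_ ?_
  · intro q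
    obtain ⟨n, ρ, h0, h1, h2⟩ := (hex q).exists
    refine ⟨n, Encodable.encode (ρ, (C q).toNat), ?_⟩
    unfold pF
    rw [DL_encode]
    simp only
    have h3 : conB (pre Y n) (sg Y C s ++ ρ) = true := by
      rw [conB_iff]
      rw [← h0]
      exact ⟨by rw [pre_length], hConPre n⟩
    rw [h3, decide_eq_true h1, decide_eq_true h2]
    rfl
  · intro q n w y hy
    unfold pF at hy
    by_cases h0 : conB (pre Y n) (sg Y C s ++ (DL w).1) = true
    · by_cases h1 : al e (sg Y C s) (DL w).1
      · by_cases h2 : outp e (sg Y C s ++ (DL w).1) q (DL w).2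
        · rw [h0, decide_eq_true h1, decide_eq_true h2] at hy
          have hy' := Option.some.inj hy
          rw [← hy']
          by_contra hne
          refine hnogood (DL w).1 ⟨((conB_iff Y).1 h0).2, ?_, q, (DL w).2, ?_, hne⟩
          · rw [hs1]; exact h1
          · rw [hs1]; exact h2
        · rw [decide_eq_false h2, Bool.and_false] at hy
          simp at hy
      · rw [decide_eq_false h1, Bool.and_false, Bool.false_and] at hy
        simp at hy
    · rw [Bool.not_eq_true] at h0
      rw [h0, Bool.false_and, Bool.false_and] at hy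
      simp at hy

end Pool.Agent.L5helper75.AP
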