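import Pool.Agent.Helper743.KTFin
import Pool.Agent.H166R3.AT.CT

set_option autoImplicit false

/-! Compactness of Cantor space, effectively closed classes relative to an oracle, and cone
avoidance. -/

namespace Pool.Agent.L5helper75.AP

open Nat.Partrec (Code)
open Filter Topology
open Pool.Agent.Helper743
open Pool.Agent.Helper743.PR (evT evR evR_spec evT_mono evT_p)
open Pool.Agent.Helper743.AC (outp outp_p outp_pre pre_outp ev_code pre_take)
open Pool.Agent.H166R3.AT

lemma compact_bound {P : ℕ → (ℕ → Bool) → Prop}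
    (hfin : ∀ n a b, (∀ i < n, a i = b i) → P n a → P n b)
    (hmono : ∀ n m a, n ≤ m → P n a → P m a) (h : ∀ a, ∃ n, P n a) : ∃ N, ∀ a, P N a := by
  have hopen : ∀ n, IsOpen {a | P n a} := by
    intro n
    rw [isOpen_iff_forall_mem_open]
    intro a ha
    refine ⟨PiNat.cylinder a n, ?_, PiNat.isOpen_cylinder _ a n, PiNat.self_mem_cylinder a n⟩
    intro b hb
    exact hfin n a b (fun i hi => ((PiNat.mem_cylinder_iff.1 hb) i hi).symm) ha
  obtain ⟨N, hN⟩ := isCompact_univ.elim_directed_cover (fun n => {a | P n a}) hopen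
    (fun a _ => by
      obtain ⟨n, hn⟩ := h a
      exact Set.mem_iUnion.2 ⟨n, hn⟩)
    (directed_of_isDirected_le (fun n m hnm a ha => hmono n m a hnm ha))
  exact ⟨N, fun a => hN (Set.mem_univ a)⟩

variable (Y : ℕ → ℕ)

/-- the join of an oracle with a point of Cantor space -/
def jn (a : ℕ → Bool) (n : ℕ) : ℕ := Nat.pair (Y n) (a n).toNat

/-- the class of the points all whose initial segments pass the test `d` -/
def Cl (d : List ℕ → Bool) : Set (ℕ → Bool) := {a | ∀ n, d (pre (jn Y a) n) = false}

lemma pre_jn_congr {a b : ℕ → Bool} {n : ℕ} (h : ∀ i < n, a i = b i) :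
    pre (jn Y a) n = pre (jn Y b) n := by
  unfold pre jn
  apply List.map_congr_left
  intro i hi
  rw [List.mem_range] at hi
  rw [h i hi]

lemma outp_mono {e : ℕ} {σ τ : List ℕ} {x y : ℕ} (h : σ <+: τ) (hc : outp e σ x y) :
    outp e τ x y := by
  unfold outp at *
  obtain ⟨j, hj, h1⟩ := hc
  have hl := h.length_le
  rw [List.mem_range] at hj
  refine ⟨j, List.mem_range.2 (by omega), ?_⟩
  have h2 : τ.take j = σ.take j := by
    obtain ⟨ρ, rfl⟩ := h
    rw [List.take_append_of_le_length (by omega)]
  rw [h2, PR.evT_mono hl (by rw [h1]; exact Nat.succ_ne_zero y)]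
  exact h1

/-- bits of numbers -/
def bt (m i : ℕ) : ℕ := m / 2 ^ i % 2

lemma bt_le (m i : ℕ) : bt m i ≤ 1 := by
  unfold bt; omega

lemma bt_ex (a : ℕ → Bool) (n : ℕ) : ∃ m < 2 ^ n, ∀ i < n, bt m i = (a i).toNat := by
  induction n with
  | zero => exact ⟨0, by simp, fun i hi => absurd hi (by omega)⟩
  | succ n ih =>
    obtain ⟨m, hm, h⟩ := ih
    refine ⟨m + 2 ^ n * (a n).toNat, ?_, ?_⟩
    · have : (a n).toNat ≤ 1 := Bool.toNat_le _
      rw [pow_succ]
      nlinarith
    · intro i hi
      unfold bt at *
      by_cases h1 : i < n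
      · rw [← h i h1]
        have h2 : 2 ^ n = 2 ^ i * (2 * 2 ^ (n - i - 1)) := by
          rw [← pow_succ', ← pow_add]
          congr 1
          omega
        rw [h2, Nat.mul_assoc, Nat.add_mul_div_left _ _ (by positivity), Nat.mul_assoc,
          Nat.add_mul_mod_self_left]
      · have h2 : i = n := by omega
        subst h2
        rw [Nat.add_mul_div_left _ _ (by positivity), Nat.div_eq_of_lt hm]
        cases a i <;> simp

/-- the joint prefix given by a prefix of the oracle and the bits of a number -/
def jm (β : List ℕ) (m : ℕ) : List ℕ :=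
  (List.range β.length).map (fun i => Nat.pair ((β[i]?).getD 0) (bt m i))

lemma jm_pre {a : ℕ → Bool} {n m : ℕ} (h : ∀ i < n, bt m i = (a i).toNat) :
    jm (pre Y n) m = pre (jn Y a) n := by
  unfold jm
  rw [pre_length]
  unfold pre jn
  apply List.map_congr_left
  intro i hi
  have h0 := hi
  rw [List.mem_range] at hi
  rw [h i hi]
  have h1 := pre_getElem? Y n i
  unfold pre at h1
  rw [h1, if_pos hi]
  rfl

lemma jm_c {α : Type*} [Primcodable α] {f : α → List ℕ} {g : α → ℕ} (hf : Computable f)
    (hg : Computable g) : Computable (fun a => jm (f a) (g a)) := by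
  have h : Primrec (fun q : (List ℕ × ℕ) × ℕ => Nat.pair ((q.1.1[q.2]?).getD 0)
      (q.1.2 / 2 ^ q.2 % 2)) :=
    Primrec₂.natPair.comp
      (Primrec.option_getD.comp (Primrec.list_getElem?.comp (Primrec.fst.comp Primrec.fst)
        Primrec.snd) (Primrec.const 0))
      (Primrec.nat_mod.comp (Primrec.nat_div.comp (Primrec.snd.comp Primrec.fst)
        (AC.pow_p.comp Primrec.snd)) (Primrec.const 2))
  have h2 : Primrec (fun q : List ℕ × ℕ => (List.range q.1.length).map
      (fun i => Nat.pair ((q.1[i]?).getD 0) (q.2 / 2 ^ i % 2))) :=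
    Primrec.list_map (Primrec.list_range.comp (Primrec.list_length.comp Primrec.fst)) h.to₂
  exact h2.to_comp.comp (hf.pair hg)

lemma outp_c {α : Type*} [Primcodable α] {e : α → ℕ} {f : α → List ℕ} {x y : α → ℕ}
    (he : Computable e) (hf : Computable f) (hx : Computable x) (hy : Computable y) :
    Computable (fun a => open Classical in decide (outp (e a) (f a) (x a) (y a))) := by
  classical
  exact outp_p.decide.to_comp.comp ((he.pair hf).pair (hx.pair hy))

/-- the requirement: the functional with index `e` does not compute `C` from `J` -/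
def Req (C : ℕ → ℕ) (e : ℕ) (J : ℕ → ℕ) : Prop :=
  ¬ ((∀ n x y, outp e (pre J n) x y → y = C x) ∧ ∀ x, ∃ n, outp e (pre J n) x (C x))

lemma not_TR_of_Req {C J : ℕ → ℕ} (h : ∀ e, Req C e J) : ¬ TR C J := by
  intro hTR
  obtain ⟨ev, hev, hmono, hcor⟩ := use_principle J _ hTR
  obtain ⟨e, he⟩ := ev_code hev
  apply h e
  refine ⟨?_, ?_⟩
  · intro n x y h1
    obtain ⟨j, hj⟩ := outp_pre he h1
    have h2 := (hcor x y).2 ⟨j, hj⟩
    exact Part.mem_some_iff.1 h2
  · intro x
    obtain ⟨j, hj⟩ := (hcor x (C x)).1 (Part.mem_some _)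
    exact (pre_outp he hj).exists

attribute [local irreducible] outp

lemma avoid_step {C : ℕ → ℕ} (hC : ¬ TR C Y) (e : ℕ) (d : List ℕ → Bool) (hd : Computable d)
    (hne : (Cl Y d).Nonempty) : ∃ d' : List ℕ → Bool, Computable d' ∧ (Cl Y d').Nonempty ∧
      Cl Y d' ⊆ Cl Y d ∧ ∀ a ∈ Cl Y d', Req C e (jn Y a) := by
  classical
  by_cases hA : ∃ a ∈ Cl Y d, ∃ n x y, outp e (pre (jn Y a) n) x y ∧ y ≠ C x
  · obtain ⟨a, ha, n, x, y, h1, h2⟩ := hA
    set β0 := pre (jn Y a) n with hβ
    have hpre : ∀ m, (pre (jn Y a) m).take n = β0.take (pre (jn Y a) m).length := by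
      intro m
      rw [pre_length, hβ]
      rcases le_total m n with h | h
      · rw [pre_take _ h, List.take_of_length_le (by rw [pre_length]; exact h)]
      · rw [pre_take _ h, List.take_of_length_le (by rw [pre_length]; exact h)]
    refine ⟨fun β => d β || !decide (β.take n = β0.take β.length), ?_, ⟨a, ?_⟩, ?_, ?_⟩
    · refine c_or hd (c_not (c_eq ?_ ?_))
      · exact (Primrec.list_take.comp (Primrec.const n) Primrec.id).to_comp
      · exact (Primrec.list_take.comp Primrec.list_length (Primrec.const β0)).to_comp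
    · intro m
      beta_reduce
      rw [ha m, hpre m]
      simp
    · intro b hb m
      have := hb m
      rw [Bool.or_eq_false_iff] at this
      exact this.1
    · intro b hb hreq
      have h3 := hb n
      rw [Bool.or_eq_false_iff] at h3
      have h4 := h3.2
      simp only [Bool.not_eq_false', decide_eq_true_eq] at h4
      rw [pre_take _ (le_refl n), pre_length, hβ, pre_take _ (le_refl n)] at h4
      apply h2
      apply hreq.1 n x y
      rw [h4]
      exact h1
  push Not at hA
  by_cases hB : ∃ x, ∃ a ∈ Cl Y d, ∀ n, ¬ outp e (pre (jn Y a) n) x (C x)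
  · obtain ⟨x, a, ha, h1⟩ := hB
    refine ⟨fun β => d β || decide (outp e β x (C x)), ?_, ⟨a, ?_⟩, ?_, ?_⟩
    · exact c_or hd (outp_c (Computable.const e) Computable.id (Computable.const x)
        (Computable.const (C x)))
    · intro m
      beta_reduce
      rw [ha m, decide_eq_false (h1 m)]
      rfl
    · intro b hb m
      have := hb m
      rw [Bool.or_eq_false_iff] at this
      exact this.1
    · intro b hb hreq
      obtain ⟨n, hn⟩ := hreq.2 x
      have h3 := hb n
      rw [Bool.or_eq_false_iff] at h3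
      have h4 := h3.2
      rw [decide_eq_false_iff_not] at h4
      exact h4 hn
  push Not at hB
  exfalso
  apply hC
  obtain ⟨a0, ha0⟩ := hne
  -- the search
  let F : List ℕ → ℕ → ℕ → Bool := fun β x w =>
    ball (2 ^ β.length) (fun m =>
      bex (β.length + 1) (fun k => d ((jm β m).take k)) || decide (outp e (jm β m) x w))
  have hF : Computable (fun q : (List ℕ × ℕ) × ℕ => F q.1.1 q.1.2 q.2) := by
    have b0 : Computable (fun q : (List ℕ × ℕ) × ℕ => q.1.1) :=
      Computable.fst.comp Computable.fst
    refine c_ball (c_pow (Computable.const 2) (Computable.list_length.comp b0)) ?_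
    have b1 : Computable (fun q : ((List ℕ × ℕ) × ℕ) × ℕ => jm q.1.1.1 q.2) :=
      jm_c (b0.comp Computable.fst) Computable.snd
    refine c_or ?_ ?_
    · refine c_bex (Computable.succ.comp (Computable.list_length.comp
        (b0.comp Computable.fst))) ?_
      have b2 : Computable (fun q : (((List ℕ × ℕ) × ℕ) × ℕ) × ℕ =>
          (jm q.1.1.1.1 q.1.2).take q.2) :=
        Primrec.list_take.to_comp.comp Computable.snd (b1.comp Computable.fst)
      exact hd.comp b2
    · exact outp_c (Computable.const e) b1
        (Computable.snd.comp (Computable.fst.comp Computable.fst))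
        (Computable.snd.comp Computable.fst)
  refine cert (TR.refl Y) (fun β x w => if F β x w = true then some w else none) ?_ C ?_ ?_
  · exact c_ite hF (Computable.option_some.comp Computable.snd) (Computable.const none)
  · intro x
    have hcb := compact_bound (P := fun n a => (∃ k < n + 1, d (pre (jn Y a) k) = true) ∨
        outp e (pre (jn Y a) n) x (C x)) ?_ ?_ ?_
    · obtain ⟨N, hN⟩ := hcb
      refine ⟨N, C x, ?_⟩
      have h1 : F (pre Y N) x (C x) = true := by
        simp only [F]
        rw [ball_iff, pre_length]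
        intro m _
        rw [Bool.or_eq_true]
        set a : ℕ → Bool := fun i => decide (bt m i = 1) with haDef
        have h2 : ∀ i < N, bt m i = (a i).toNat := by
          intro i _
          simp only [haDef]
          have := bt_le m i
          by_cases h3 : bt m i = 1
          · rw [h3]; simp
          · have h4 : bt m i = 0 := by omega
            rw [h4]; simp
        rw [jm_pre Y h2]
        rcases hN a with ⟨k, hk, h3⟩ | h3
        · left
          rw [bex_iff]
          exact ⟨k, hk, by rw [pre_take _ (by omega)]; exact h3⟩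
        · right
          exact decide_eq_true h3
      rw [if_pos h1]
      rfl
    · intro n a b hab h
      rcases h with ⟨k, hk, h⟩ | h
      · left
        refine ⟨k, hk, ?_⟩
        rw [← pre_jn_congr Y (fun i hi => hab i (by omega))]
        exact h
      · right
        rw [← pre_jn_congr Y hab]
        exact h
    · intro n m a hnm h
      rcases h with ⟨k, hk, h⟩ | h
      · left; exact ⟨k, by omega, h⟩
      · right; exact outp_mono (pre_prefix _ hnm) h
    · intro a
      by_cases ha : a ∈ Cl Y d
      · obtain ⟨n, hn⟩ := hB x a ha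
        exact ⟨n, Or.inr hn⟩
      · have h1 : ∃ n, ¬ d (pre (jn Y a) n) = false := by
          by_contra h2
          push Not at h2
          exact ha h2
        obtain ⟨n, hn⟩ := h1
        rw [Bool.not_eq_false] at hn
        exact ⟨n, Or.inl ⟨n, by omega, hn⟩⟩
  · intro x n w y hy
    by_cases h1 : F (pre Y n) x w = true
    · rw [if_pos h1] at hy
      rw [← Option.some.inj hy]
      obtain ⟨m, hm, h2⟩ := bt_ex a0 n
      simp only [F] at h1
      rw [ball_iff, pre_length] at h1
      have h3 := h1 m hm
      rw [Bool.or_eq_true, jm_pre Y h2] at h3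
      rcases h3 with h3 | h3
      · exfalso
        rw [bex_iff] at h3
        obtain ⟨k, hk, h4⟩ := h3
        rw [pre_take _ (by omega), ha0 k] at h4
        exact Bool.false_ne_true h4
      · rw [decide_eq_true_eq] at h3
        exact hA a0 ha0 n x w h3
    · rw [if_neg h1] at hy
      exact absurd hy (by simp)

lemma Cl_closed (d : List ℕ → Bool) : IsClosed (Cl Y d) := by
  have h : Cl Y d = ⋂ n, {a | d (pre (jn Y a) n) = false} := by
    ext a
    simp [Cl]
  rw [h]
  refine isClosed_iInter (fun n => ?_)
  rw [← isOpen_compl_iff, isOpen_iff_forall_mem_open]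
  intro a ha
  refine ⟨PiNat.cylinder a n, ?_, PiNat.isOpen_cylinder _ a n, PiNat.self_mem_cylinder a n⟩
  intro b hb
  have h1 := pre_jn_congr Y (a := b) (b := a) (n := n)
    (fun i hi => (PiNat.mem_cylinder_iff.1 hb) i hi)
  simp only [Set.mem_compl_iff, Set.mem_setOf_eq] at ha ⊢
  rw [h1]
  exact ha

/-- cone avoidance in effectively closed classes relative to an oracle -/
theorem cone_avoid {C : ℕ → ℕ} (hC : ¬ TR C Y) (d : List ℕ → Bool) (hd : Computable d)
    (hne : (Cl Y d).Nonempty) : ∃ a ∈ Cl Y d, ¬ TR C (jn Y a) := by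
  classical
  let T := {d : List ℕ → Bool // Computable d ∧ (Cl Y d).Nonempty}
  have hstep : ∀ (e : ℕ) (t : T), ∃ t' : T, Cl Y t'.1 ⊆ Cl Y t.1 ∧
      ∀ a ∈ Cl Y t'.1, Req C e (jn Y a) := by
    intro e t
    obtain ⟨d', h1, h2, h3, h4⟩ := avoid_step Y hC e t.1 t.2.1 t.2.2
    exact ⟨⟨d', h1, h2⟩, h3, h4⟩
  choose nx hnx1 hnx2 using hstep
  let seq : ℕ → T := fun s => Nat.rec ⟨d, hd, hne⟩ (fun s t => nx s t) s
  have hsub : ∀ s, Cl Y (seq (s + 1)).1 ⊆ Cl Y (seq s).1 := fun s => hnx1 s (seq s)
  obtain ⟨a, ha⟩ := IsCompact.nonempty_iInter_of_sequence_nonempty_isCompact_isClosed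
    (fun s => Cl Y (seq s).1) hsub (fun s => (seq s).2.2)
    ((Cl_closed Y _).isCompact) (fun s => Cl_closed Y _)
  rw [Set.mem_iInter] at ha
  refine ⟨a, ha 0, ?_⟩
  apply not_TR_of_Req
  intro e
  exact hnx2 e (seq e) a (ha (e + 1))

end Pool.Agent.L5helper75.AP
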