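import Pool.Agent.Helper743.KTFin
import Pool.Agent.H166R3.AT.CT

set_option autoImplicit false

/-! Costs of changes of approximations carried by an oracle: integer and real versions, allowed
extensions. General version of a construction in `Helper743`, for approximations given by an
arbitrary primitive recursive function `st` of the entries of the oracle. -/

namespace Pool.Agent.L5helper75.AP

open Nat.Partrec (Code)
open Filter
open Pool.Agent.Helper743
open Pool.Agent.Helper743.AC (wN massN kk wR massR MR wN_p massN_p wN_cast massN_cast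
  mass_le_iff wR_mono wR_nonneg massR_mono MR_mono MR_le MR_nonneg fsum_p pow_p geo_le lst
  lst_p lst_concat outp outp_p conv)
open Pool.Agent.Helper743.KT (cR totR cR_nonneg totR_nonneg totR_concat)

/-- the first `w` bits of the string coded by the second component of `t` -/
def st (t w : ℕ) : List Bool :=
  (List.range w).map (fun p =>
    ((((Encodable.decode (α := List Bool) t.unpair.2).getD [])[p]?).getD false))

lemma st_len (t w : ℕ) : (st t w).length = w := by simp [st]

lemma st_take {t w w' : ℕ} (h : w' ≤ w) : st t w' = (st t w).take w' := by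
  unfold st
  rw [← List.map_take, List.take_range, min_eq_left h]

lemma st_p : Primrec₂ st := by
  have h1 : Primrec (fun t : ℕ => (Encodable.decode (α := List Bool) t.unpair.2).getD []) :=
    Primrec.option_getD.comp (Primrec.decode.comp (Primrec.snd.comp Primrec.unpair))
      (Primrec.const [])
  have h : Primrec (fun q : (ℕ × ℕ) × ℕ =>
      ((((Encodable.decode (α := List Bool) q.1.1.unpair.2).getD [])[q.2]?).getD false)) :=
    Primrec.option_getD.comp (Primrec.list_getElem?.comp (h1.comp (Primrec.fst.comp Primrec.fst))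
      Primrec.snd) (Primrec.const false)
  have h2 := Primrec.list_map (Primrec.list_range.comp (Primrec.snd (α := ℕ) (β := ℕ))) h.to₂
  exact h2

lemma st_eq_mono {t t' w w' : ℕ} (h : w' ≤ w) (he : st t w = st t' w) :
    st t w' = st t' w' := by
  rw [st_take h, he, ← st_take h]

noncomputable def cN (L i : ℕ) (σ : List ℕ) (t' : ℕ) : ℕ :=
  if massN L i σ ≤ 2 ^ L then
    ∑ w ∈ Finset.range (σ.length + 1), if st (lst σ) w = st t' w then 0 else wN L i σ w
  else 0

noncomputable def totN (L i : ℕ) (τ : List ℕ) : ℕ :=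
  ∑ j ∈ Finset.range τ.length, cN L i (τ.take j) ((τ[j]?).getD 0)

noncomputable def qN (L i : ℕ) (τ : List ℕ) : ℕ := totN L i τ + min (massN L i τ) (2 ^ L)

def resp (σ ρ : List ℕ) : Prop := ∀ t' ∈ ρ, st t' σ.length = st (lst σ) σ.length

def al (e : ℕ) (σ ρ : List ℕ) : Prop :=
  resp σ ρ ∧ ∀ i ∈ List.range (e + 1),
    2 ^ e * qN (σ ++ ρ).length i (σ ++ ρ) ≤
      2 ^ e * qN (σ ++ ρ).length i σ + 2 ^ (σ ++ ρ).length

section prim

attribute [local irreducible] st wN massN lst

lemma cN_p : Primrec (fun q : ((ℕ × ℕ) × List ℕ) × ℕ => cN q.1.1.1 q.1.1.2 q.1.2 q.2) := by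
  have h1 : PrimrecPred (fun q : ((ℕ × ℕ) × List ℕ) × ℕ =>
      massN q.1.1.1 q.1.1.2 q.1.2 ≤ 2 ^ q.1.1.1) :=
    Primrec.nat_le.comp (massN_p.comp Primrec.fst)
      (pow_p.comp (Primrec.fst.comp (Primrec.fst.comp Primrec.fst)))
  have h2 : PrimrecPred (fun z : (((ℕ × ℕ) × List ℕ) × ℕ) × ℕ =>
      st (lst z.1.1.2) z.2 = st z.1.2 z.2) :=
    Primrec.eq.comp (st_p.comp (lst_p.comp (Primrec.snd.comp (Primrec.fst.comp Primrec.fst)))
      Primrec.snd) (st_p.comp (Primrec.snd.comp Primrec.fst) Primrec.snd)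
  have h3 : Primrec (fun z : (((ℕ × ℕ) × List ℕ) × ℕ) × ℕ =>
      wN z.1.1.1.1 z.1.1.1.2 z.1.1.2 z.2) :=
    wN_p.comp ((Primrec.fst.comp Primrec.fst).pair Primrec.snd)
  have h4 := Primrec.ite h2 (Primrec.const 0) h3
  have h5 := fsum_p (Primrec.succ.comp (Primrec.list_length.comp
    (Primrec.snd.comp (Primrec.fst (α := (ℕ × ℕ) × List ℕ) (β := ℕ))))) h4.to₂
  have h6 := Primrec.ite h1 h5 (Primrec.const 0)
  refine h6.of_eq ?_
  intro q
  unfold cN
  rfl

attribute [local irreducible] cN

lemma totN_p : Primrec (fun q : (ℕ × ℕ) × List ℕ => totN q.1.1 q.1.2 q.2) := by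
  have t : Primrec (fun z : ((ℕ × ℕ) × List ℕ) × ℕ => z.1.2.take z.2) :=
    Primrec.list_take.comp Primrec.snd (Primrec.snd.comp Primrec.fst)
  have g : Primrec (fun z : ((ℕ × ℕ) × List ℕ) × ℕ => (z.1.2[z.2]?).getD 0) :=
    Primrec.option_getD.comp (Primrec.list_getElem?.comp (Primrec.snd.comp Primrec.fst)
      Primrec.snd) (Primrec.const 0)
  have h1 := cN_p.comp (((Primrec.fst.comp Primrec.fst).pair t).pair g)
  have h := fsum_p (α := (ℕ × ℕ) × List ℕ) (Primrec.list_length.comp Primrec.snd) h1.to₂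
  exact h

attribute [local irreducible] totN

lemma qN_p : Primrec (fun q : (ℕ × ℕ) × List ℕ => qN q.1.1 q.1.2 q.2) :=
  Primrec.nat_add.comp totN_p (Primrec.nat_min.comp massN_p
    (pow_p.comp (Primrec.fst.comp Primrec.fst)))

attribute [local irreducible] qN

lemma resp_p : PrimrecPred (fun q : List ℕ × List ℕ => resp q.1 q.2) := by
  have l : Primrec (fun z : ℕ × (List ℕ × List ℕ) => z.2.1.length) :=
    Primrec.list_length.comp (Primrec.fst.comp Primrec.snd)
  have h1 : PrimrecRel (fun (t' : ℕ) (q : List ℕ × List ℕ) =>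
      st t' q.1.length = st (lst q.1) q.1.length) :=
    Primrec.eq.comp (st_p.comp Primrec.fst l)
      (st_p.comp (lst_p.comp (Primrec.fst.comp Primrec.snd)) l)
  exact h1.forall_mem_list.comp Primrec.snd Primrec.id

attribute [local irreducible] resp

lemma al_p : PrimrecPred (fun q : (ℕ × List ℕ) × List ℕ => al q.1.1 q.1.2 q.2) := by
  have h1 : PrimrecPred (fun q : (ℕ × List ℕ) × List ℕ => resp q.1.2 q.2) :=
    resp_p.comp ((Primrec.snd.comp Primrec.fst).pair Primrec.snd)
  have i : Primrec (fun z : ℕ × ((ℕ × List ℕ) × List ℕ) => z.1) := Primrec.fst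
  have e : Primrec (fun z : ℕ × ((ℕ × List ℕ) × List ℕ) => 2 ^ z.2.1.1) :=
    pow_p.comp (Primrec.fst.comp (Primrec.fst.comp Primrec.snd))
  have s : Primrec (fun z : ℕ × ((ℕ × List ℕ) × List ℕ) => z.2.1.2) :=
    Primrec.snd.comp (Primrec.fst.comp Primrec.snd)
  have sr : Primrec (fun z : ℕ × ((ℕ × List ℕ) × List ℕ) => z.2.1.2 ++ z.2.2) :=
    Primrec.list_append.comp s (Primrec.snd.comp Primrec.snd)
  have L : Primrec (fun z : ℕ × ((ℕ × List ℕ) × List ℕ) => (z.2.1.2 ++ z.2.2).length) :=
    Primrec.list_length.comp sr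
  have a1 := Primrec.nat_mul.comp e (qN_p.comp ((L.pair i).pair sr))
  have a2 := Primrec.nat_add.comp (Primrec.nat_mul.comp e (qN_p.comp ((L.pair i).pair s)))
    (pow_p.comp L)
  have h2 : PrimrecRel (fun (i : ℕ) (q : (ℕ × List ℕ) × List ℕ) =>
      2 ^ q.1.1 * qN (q.1.2 ++ q.2).length i (q.1.2 ++ q.2) ≤
      2 ^ q.1.1 * qN (q.1.2 ++ q.2).length i q.1.2 + 2 ^ (q.1.2 ++ q.2).length) :=
    Primrec.nat_le.comp a1 a2
  have h3 : PrimrecPred (fun q : (ℕ × List ℕ) × List ℕ => ∀ i ∈ List.range (q.1.1 + 1),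
      2 ^ q.1.1 * qN (q.1.2 ++ q.2).length i (q.1.2 ++ q.2) ≤
      2 ^ q.1.1 * qN (q.1.2 ++ q.2).length i q.1.2 + 2 ^ (q.1.2 ++ q.2).length) :=
    h2.forall_mem_list.comp (Primrec.list_range.comp (Primrec.succ.comp
      (Primrec.fst.comp Primrec.fst))) Primrec.id
  exact PrimrecPred.and h1 h3

end prim

noncomputable def qR (i : ℕ) (τ : List ℕ) : ℝ := totR st i τ + MR i τ

lemma cN_cast {L i : ℕ} {σ : List ℕ} {t' : ℕ} (h : σ.length ≤ L) :
    (cN L i σ t' : ℝ) = 2 ^ L * cR st i σ t' := by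
  unfold cN cR
  by_cases h1 : massR i σ ≤ 1
  · rw [if_pos h1, if_pos ((mass_le_iff h).2 h1), Finset.mul_sum]
    push_cast
    refine Finset.sum_congr rfl (fun w _ => ?_)
    by_cases h2 : st (lst σ) w = st t' w
    · rw [if_pos h2, if_pos h2]; simp
    · rw [if_neg h2, if_neg h2]; exact wN_cast h
  · rw [if_neg h1, if_neg (fun h2 => h1 ((mass_le_iff h).1 h2))]; simp

lemma totN_cast {L i : ℕ} {τ : List ℕ} (h : τ.length ≤ L) :
    (totN L i τ : ℝ) = 2 ^ L * totR st i τ := by
  unfold totN totR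
  push_cast
  rw [Finset.mul_sum]
  refine Finset.sum_congr rfl (fun j hj => ?_)
  apply cN_cast
  rw [List.length_take]
  exact le_trans (min_le_right _ _) h

lemma qN_cast {L i : ℕ} {τ : List ℕ} (h : τ.length ≤ L) :
    (qN L i τ : ℝ) = 2 ^ L * qR i τ := by
  unfold qN qR MR
  push_cast
  rw [totN_cast h, massN_cast h, mul_add]
  congr 1
  rw [mul_min_of_nonneg _ _ (by positivity), mul_one]

lemma al_iff {e : ℕ} {σ ρ : List ℕ} : al e σ ρ ↔ resp σ ρ ∧
    ∀ i, i ≤ e → qR i (σ ++ ρ) ≤ qR i σ + (1 / 2) ^ e := by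
  unfold al
  refine and_congr Iff.rfl ?_
  have key : ∀ i, (2 ^ e * qN (σ ++ ρ).length i (σ ++ ρ) ≤
      2 ^ e * qN (σ ++ ρ).length i σ + 2 ^ (σ ++ ρ).length) ↔
      qR i (σ ++ ρ) ≤ qR i σ + (1 / 2) ^ e := by
    intro i
    set L := (σ ++ ρ).length with hL
    have h1 : (qN L i (σ ++ ρ) : ℝ) = 2 ^ L * qR i (σ ++ ρ) := qN_cast (le_refl _)
    have h2 : (qN L i σ : ℝ) = 2 ^ L * qR i σ := qN_cast (by rw [hL]; simp)
    have h3 : (2 ^ e * qN L i (σ ++ ρ) ≤ 2 ^ e * qN L i σ + 2 ^ L) ↔
        ((2 : ℝ) ^ e * (2 ^ L * qR i (σ ++ ρ)) ≤ 2 ^ e * (2 ^ L * qR i σ) + 2 ^ L) := by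
      rw [← h1, ← h2]
      constructor
      · intro h; exact_mod_cast h
      · intro h; exact_mod_cast h
    rw [h3]
    have h4 : (0 : ℝ) < 2 ^ e * 2 ^ L := by positivity
    have h5 : (2 : ℝ) ^ e * (2 ^ L * qR i σ) + 2 ^ L =
        2 ^ e * 2 ^ L * (qR i σ + (1 / 2) ^ e) := by
      have : (2 : ℝ) ^ e * (1 / 2) ^ e = 1 := by rw [← mul_pow]; norm_num
      calc (2 : ℝ) ^ e * (2 ^ L * qR i σ) + 2 ^ L =
          2 ^ e * (2 ^ L * qR i σ) + 2 ^ L * (2 ^ e * (1 / 2) ^ e) := by rw [this, mul_one]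
        _ = _ := by ring
    rw [h5, ← mul_assoc]
    constructor
    · intro h; exact le_of_mul_le_mul_left h h4
    · intro h; exact mul_le_mul_of_nonneg_left h h4.le
  constructor
  · intro h i hi
    exact (key i).1 (h i (List.mem_range.2 (by omega)))
  · intro h i hi
    exact (key i).2 (h i (by have := List.mem_range.1 hi; omega))

lemma totR_mono {i : ℕ} {σ τ : List ℕ} (h : σ <+: τ) : totR st i σ ≤ totR st i τ := by
  obtain ⟨ρ, rfl⟩ := h
  induction ρ using List.reverseRecOn with
  | nil => rw [List.append_nil]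
  | append_singleton ρ t ih =>
    rw [← List.append_assoc, totR_concat]
    have := cR_nonneg st i (σ ++ ρ) t
    linarith

lemma qR_mono {i : ℕ} {σ τ : List ℕ} (h : σ <+: τ) : qR i σ ≤ qR i τ :=
  add_le_add (totR_mono h) (MR_mono h)

/-- the last entry of a respecting extension -/
lemma resp_lst {σ ρ : List ℕ} (h : resp σ ρ) :
    st (lst (σ ++ ρ)) σ.length = st (lst σ) σ.length := by
  by_cases h1 : ρ = []
  · rw [h1, List.append_nil]
  · have h2 : lst (σ ++ ρ) = lst ρ := by
      unfold lst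
      have h3 := List.length_pos_iff.2 h1
      rw [List.length_append, List.getElem?_append_right (by omega)]
      congr 2
      omega
    rw [h2]
    unfold resp at h
    exact h _ (Pool.Agent.Helper743.AC.lst_mem h1)

/-- the cost of the correction is bounded by the growth of the mass -/
lemma corr_cost {i : ℕ} {σ ρ : List ℕ} {t : ℕ} (h : resp σ ρ)
    (ht : st t σ.length = st (lst σ) σ.length) :
    cR st i (σ ++ ρ) t ≤ MR i (σ ++ ρ) - MR i σ := by
  have hpre : σ <+: σ ++ ρ := List.prefix_append _ _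
  unfold cR
  by_cases h1 : massR i (σ ++ ρ) ≤ 1
  · rw [if_pos h1]
    have h2 : MR i (σ ++ ρ) = massR i (σ ++ ρ) := min_eq_left h1
    have h3 : MR i σ ≤ massR i σ := min_le_left _ _
    rw [h2]
    have h4 : ∑ w ∈ Finset.range ((σ ++ ρ).length + 1),
        (if st (lst (σ ++ ρ)) w = st t w then 0 else wR i (σ ++ ρ) w) +
        massR i σ ≤ massR i (σ ++ ρ) := by
      have h5 : massR i σ ≤ ∑ w ∈ Finset.range ((σ ++ ρ).length + 1),
          (if w ≤ σ.length then wR i (σ ++ ρ) w else 0) := by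
        have h6 : ∑ w ∈ Finset.range (σ.length + 1), wR i (σ ++ ρ) w =
            ∑ w ∈ Finset.range (σ.length + 1),
            (if w ≤ σ.length then wR i (σ ++ ρ) w else 0) := by
          refine Finset.sum_congr rfl (fun w hw => ?_)
          rw [Finset.mem_range] at hw
          rw [if_pos (by omega)]
        calc massR i σ ≤ ∑ w ∈ Finset.range (σ.length + 1), wR i (σ ++ ρ) w :=
              Finset.sum_le_sum (fun w _ => wR_mono hpre w)
          _ = _ := h6
          _ ≤ _ := by
              apply Finset.sum_le_sum_of_subset_of_nonneg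
              · exact Finset.range_mono (by have := hpre.length_le; omega)
              · intro _ _ _
                split_ifs
                · exact wR_nonneg _ _ _
                · exact le_refl _
      calc _ ≤ ∑ w ∈ Finset.range ((σ ++ ρ).length + 1),
            (if st (lst (σ ++ ρ)) w = st t w then 0 else wR i (σ ++ ρ) w) +
            ∑ w ∈ Finset.range ((σ ++ ρ).length + 1),
            (if w ≤ σ.length then wR i (σ ++ ρ) w else 0) := by linarith
        _ = ∑ w ∈ Finset.range ((σ ++ ρ).length + 1),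
            ((if st (lst (σ ++ ρ)) w = st t w then 0 else wR i (σ ++ ρ) w) +
            (if w ≤ σ.length then wR i (σ ++ ρ) w else 0)) := Finset.sum_add_distrib.symm
        _ ≤ massR i (σ ++ ρ) := by
            unfold massR
            refine Finset.sum_le_sum (fun w _ => ?_)
            by_cases h7 : w ≤ σ.length
            · have h8 : st (lst (σ ++ ρ)) w = st t w := by
                apply st_eq_mono h7
                rw [resp_lst h, ht]
              rw [if_pos h8, if_pos h7]; linarith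
            · rw [if_neg h7]
              have := wR_nonneg i (σ ++ ρ) w
              split_ifs <;> linarith
    linarith
  · rw [if_neg h1]
    have := MR_mono (i := i) hpre
    linarith

lemma tot_step {i : ℕ} {σ ρ : List ℕ} {t : ℕ} (h : resp σ ρ)
    (ht : st t σ.length = st (lst σ) σ.length) :
    totR st i (σ ++ ρ ++ [t]) ≤ totR st i σ + (qR i (σ ++ ρ) - qR i σ) := by
  rw [totR_concat]
  have := corr_cost (i := i) h ht
  unfold qR
  linarith

end Pool.Agent.L5helper75.AP
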