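import Pool.Agent.L5helper75.AP.Comp
import Pool.Agent.L5helper75.AP.Avoid

set_option autoImplicit false

/-! Sets of PA degree relative to an oracle, and the main construction. -/

namespace Pool.Agent.L5helper75.AP

open Nat.Partrec (Code)
open Filter Topology
open Pool.Agent.Helper743
open Pool.Agent.Helper743.PR (evT evR evR_spec evT_mono evT_p)
open Pool.Agent.Helper743.AC (outp outp_p outp_pre pre_outp ev_code pre_take)
open Pool.Agent.H166R3.AT

variable (Y : ℕ → ℕ)

/-- the oracle part of a joint prefix -/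
def yp (β : List ℕ) : List ℕ := β.map (fun t => t.unpair.1)

lemma yp_pre (a : ℕ → Bool) (n : ℕ) : yp (pre (jn Y a) n) = pre Y n := by
  unfold yp pre
  rw [List.map_map]
  apply List.map_congr_left
  intro i _
  simp [jn]

/-- the functional with the index `p.1` outputs `v` on the input `p.2` -/
noncomputable def OO (β : List ℕ) (p n v : ℕ) : Bool :=
  open Classical in decide (outp p.unpair.1 ((yp β).take n) p.unpair.2 v)

/-- a conflict with the partial functions with values in `{0, 1}` -/
noncomputable def d0 (β : List ℕ) : Bool :=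
  bex β.length (fun p => bex (β.length + 1) (fun n =>
    (OO β p n 0 && (!(bex n (fun m => OO β p m 1)) && decide ((((β[p]?).getD 0).unpair.2) = 1))) ||
    (OO β p n 1 && (!(bex (n + 1) (fun m => OO β p m 0)) &&
      decide ((((β[p]?).getD 0).unpair.2) = 0)))))

lemma yp_c : Computable yp :=
  (Primrec.list_map Primrec.id ((Primrec.fst.comp (Primrec.unpair.comp Primrec.snd)).to₂)).to_comp

section comp

attribute [local irreducible] outp

lemma OO_c {α : Type*} [Primcodable α] {f : α → List ℕ} {p n v : α → ℕ} (hf : Computable f)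
    (hp : Computable p) (hn : Computable n) (hv : Computable v) :
    Computable (fun a => OO (f a) (p a) (n a) (v a)) := by
  have h := outp_c (Computable.fst.comp (Computable.unpair.comp hp))
    (Primrec.list_take.to_comp.comp hn (yp_c.comp hf))
    (Computable.snd.comp (Computable.unpair.comp hp)) hv
  exact h

lemma d0_c : Computable d0 := by
  refine c_bex Computable.list_length ?_
  have p : Computable (fun q : List ℕ × ℕ => q.2) := Computable.snd
  refine c_bex (Computable.succ.comp (Computable.list_length.comp Computable.fst)) ?_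
  have b2 : Computable (fun q : (List ℕ × ℕ) × ℕ => q.1.1) := Computable.fst.comp Computable.fst
  have p2 : Computable (fun q : (List ℕ × ℕ) × ℕ => q.1.2) := Computable.snd.comp Computable.fst
  have n2 : Computable (fun q : (List ℕ × ℕ) × ℕ => q.2) := Computable.snd
  have v2 : Computable (fun q : (List ℕ × ℕ) × ℕ => (((q.1.1[q.1.2]?).getD 0).unpair.2)) :=
    Computable.snd.comp (Computable.unpair.comp (Computable.option_getD
      (Computable.list_getElem?.comp b2 p2) (Computable.const 0)))
  have F : Computable (Prod.fst : ((List ℕ × ℕ) × ℕ) × ℕ → (List ℕ × ℕ) × ℕ) := Computable.fst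
  refine c_or (c_and (OO_c b2 p2 n2 (Computable.const 0)) (c_and (c_not (c_bex n2 ?_))
    (c_eq v2 (Computable.const 1)))) (c_and (OO_c b2 p2 n2 (Computable.const 1))
    (c_and (c_not (c_bex (Computable.succ.comp n2) ?_)) (c_eq v2 (Computable.const 0))))
  · exact OO_c (b2.comp F) (p2.comp F) Computable.snd (Computable.const 1)
  · exact OO_c (b2.comp F) (p2.comp F) Computable.snd (Computable.const 0)

end comp

lemma OO_pre {a : ℕ → Bool} {N p n v : ℕ} (hn : n ≤ N) :
    OO (pre (jn Y a) N) p n v = true ↔ outp p.unpair.1 (pre Y n) p.unpair.2 v := by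
  classical
  unfold OO
  rw [yp_pre, pre_take _ hn]
  exact decide_eq_true_iff

lemma bit_pre {a : ℕ → Bool} {N p : ℕ} (hp : p < N) :
    (((pre (jn Y a) N)[p]?).getD 0).unpair.2 = (a p).toNat := by
  rw [pre_getElem?, if_pos hp]
  simp [jn]

lemma d0_ne : (Cl Y d0).Nonempty := by
  classical
  refine ⟨fun p => decide (∃ n, outp p.unpair.1 (pre Y n) p.unpair.2 1 ∧
    ∀ m < n + 1, ¬ outp p.unpair.1 (pre Y m) p.unpair.2 0), fun N => ?_⟩
  rw [← Bool.not_eq_true]
  intro h
  unfold d0 at h
  rw [bex_iff, pre_length] at h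
  obtain ⟨p, hp, h⟩ := h
  rw [bex_iff] at h
  obtain ⟨n, hn, h⟩ := h
  rw [Bool.or_eq_true] at h
  rcases h with h | h
  · rw [Bool.and_eq_true, Bool.and_eq_true] at h
    obtain ⟨h1, h2, h3⟩ := h
    rw [OO_pre Y (by omega)] at h1
    rw [bit_pre Y hp, decide_eq_true_iff] at h3
    have h4 : ∃ n, outp p.unpair.1 (pre Y n) p.unpair.2 1 ∧
        ∀ m < n + 1, ¬ outp p.unpair.1 (pre Y m) p.unpair.2 0 := by
      by_contra h5
      rw [decide_eq_false h5] at h3
      simp at h3
    obtain ⟨n', h5, h6⟩ := h4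
    have h7 : n' < n := by
      by_contra hlt
      exact h6 n (by omega) h1
    rw [Bool.not_eq_true', ← Bool.not_eq_true] at h2
    apply h2
    rw [bex_iff]
    exact ⟨n', h7, (OO_pre Y (by omega)).2 h5⟩
  · rw [Bool.and_eq_true, Bool.and_eq_true] at h
    obtain ⟨h1, h2, h3⟩ := h
    rw [OO_pre Y (by omega)] at h1
    rw [bit_pre Y hp, decide_eq_true_iff] at h3
    have h4 : ∃ n, outp p.unpair.1 (pre Y n) p.unpair.2 1 ∧
        ∀ m < n + 1, ¬ outp p.unpair.1 (pre Y m) p.unpair.2 0 := by
      refine ⟨n, h1, fun m hm h5 => ?_⟩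
      rw [Bool.not_eq_true', ← Bool.not_eq_true] at h2
      apply h2
      rw [bex_iff]
      exact ⟨m, hm, (OO_pre Y (by omega)).2 h5⟩
    rw [decide_eq_true h4] at h3
    simp at h3

lemma d0_ext {a : ℕ → Bool} (ha : a ∈ Cl Y d0) {e x b : ℕ} (hb : b ≤ 1)
    (h1 : ∃ n, outp e (pre Y n) x b) (h2 : ∀ n y, outp e (pre Y n) x y → y = b) :
    (a (Nat.pair e x)).toNat = b := by
  obtain ⟨n, hn⟩ := h1
  by_contra hne
  set p := Nat.pair e x with hp
  have e1 : p.unpair.1 = e := by rw [hp, Nat.unpair_pair]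
  have e2 : p.unpair.2 = x := by rw [hp, Nat.unpair_pair]
  have hab : (a p).toNat ≤ 1 := Bool.toNat_le _
  have h3 := ha (max (p + 1) n)
  rw [← Bool.not_eq_true] at h3
  apply h3
  unfold d0
  rw [bex_iff]
  refine ⟨p, by rw [pre_length]; omega, ?_⟩
  rw [bex_iff]
  refine ⟨n, by rw [pre_length]; omega, ?_⟩
  rw [Bool.or_eq_true]
  have hb' : b = 0 ∨ b = 1 := by omega
  rcases hb' with rfl | rfl
  · left
    rw [Bool.and_eq_true, Bool.and_eq_true]
    refine ⟨?_, ?_, ?_⟩
    · rw [OO_pre Y (by omega), e1, e2]; exact hn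
    · rw [Bool.not_eq_true', ← Bool.not_eq_true, bex_iff]
      rintro ⟨m, hm, h4⟩
      rw [OO_pre Y (by omega), e1, e2] at h4
      exact absurd (h2 m 1 h4) (by omega)
    · rw [bit_pre Y (by omega), decide_eq_true_iff]; omega
  · right
    rw [Bool.and_eq_true, Bool.and_eq_true]
    refine ⟨?_, ?_, ?_⟩
    · rw [OO_pre Y (by omega), e1, e2]; exact hn
    · rw [Bool.not_eq_true', ← Bool.not_eq_true, bex_iff]
      rintro ⟨m, hm, h4⟩
      rw [OO_pre Y (by omega), e1, e2] at h4
      exact absurd (h2 m 0 h4) (by omega)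
    · rw [bit_pre Y (by omega), decide_eq_true_iff]; omega

/-- The main construction: above every oracle `Y` which does not compute `C` there is a set `A`
which is PA relative to `Y`, such that `C` is K-trivial relative to `A` and not computable
from `A`. -/
theorem main (C : ℕ → Bool) (hC : ¬ TR (fun n => (C n).toNat) Y) :
    ∃ A : ℕ → Bool, TR Y (fun n => (A n).toNat) ∧
      (∀ f : ℕ →. ℕ, Nat.RecursiveIn {(Y : ℕ →. ℕ)} f → (∀ n, ∀ b ∈ f n, b ≤ 1) →
        ∃ g : ℕ → Bool, TR (fun n => (g n).toNat) (fun n => (A n).toNat) ∧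
          ∀ n, ∀ b ∈ f n, (g n).toNat = b) ∧
      ¬ TR (fun n => (C n).toNat) (fun n => (A n).toNat) ∧
      KT.Opt (fun n => (A n).toNat) (KT.KG (fun n => (A n).toNat)) ∧
      ∃ c, ∀ n, KT.KG (fun n => (A n).toNat) (Encodable.encode (XC C n)) ≤
        KT.KG (fun n => (A n).toNat) n + c := by
  classical
  obtain ⟨a, ha, hav⟩ := cone_avoid Y hC d0 d0_c (d0_ne Y)
  set Y1 := jn Y a with hY1
  set G := GG Y1 C with hG
  have hGC : ¬ TR (fun n => (C n).toNat) G := avoids Y1 C hav
  have hYG : TR Y1 G := by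
    have h1 : Computable (fun n : ℕ => n.unpair.1) := Computable.fst.comp Computable.unpair
    have h2 := (Computable.recT (O := {(G : ℕ →. ℕ)}) h1).comp (TR.refl G)
    refine Nat.RecursiveIn.of_eq h2 ?_
    intro n
    congr 1
    exact GG_fst Y1 C n
  have hYY1 : TR Y Y1 := by
    have h1 : Computable (fun n : ℕ => n.unpair.1) := Computable.fst.comp Computable.unpair
    have h2 := (Computable.recT (O := {(Y1 : ℕ →. ℕ)}) h1).comp (TR.refl Y1)
    refine Nat.RecursiveIn.of_eq h2 ?_
    intro n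
    congr 1
    simp [hY1, jn]
  have haY1 : TR (fun n => (a n).toNat) Y1 := by
    have h1 : Computable (fun n : ℕ => n.unpair.2) := Computable.snd.comp Computable.unpair
    have h2 := (Computable.recT (O := {(Y1 : ℕ →. ℕ)}) h1).comp (TR.refl Y1)
    refine Nat.RecursiveIn.of_eq h2 ?_
    intro n
    congr 1
    simp [hY1, jn]
  set A := KT.gr G with hA
  have hAG : TR (fun n => (A n).toNat) G := KT.gr_TR G
  have hGA : TR G (fun n => (A n).toNat) := KT.TR_gr G
  refine ⟨A, hYY1.trans (hYG.trans hGA), ?_, fun h => hGC (h.trans hAG), KT.Opt_KG _, ?_⟩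
  · intro f hf hfb
    obtain ⟨ev, hev, hmono, hcor⟩ := use_principle Y f hf
    obtain ⟨e, he⟩ := ev_code hev
    refine ⟨fun x => a (Nat.pair e x), ?_, ?_⟩
    · have h1 : Computable (fun x : ℕ => Nat.pair e x) :=
        Primrec₂.natPair.to_comp.comp (Computable.const e) Computable.id
      have h2 := haY1.comp (Computable.recT (O := {(Y1 : ℕ →. ℕ)}) h1)
      have h3 : TR (fun x => (a (Nat.pair e x)).toNat) Y1 := h2
      exact h3.trans (hYG.trans hGA)
    · intro x b hb
      refine d0_ext Y ha (hfb x b hb) ?_ ?_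
      · obtain ⟨j, hj⟩ := (hcor x b).1 hb
        exact (pre_outp he hj).exists
      · intro n y h1
        obtain ⟨j, hj⟩ := outp_pre he h1
        exact Part.mem_unique ((hcor x y).2 ⟨j, hj⟩) hb
  · have htr : ∃ c, ∀ n, KT.KG G (Encodable.encode (XC C n)) ≤ KT.KG G n + c :=
      KT.triv_KG (fun f φ h1 h2 h3 => KT.trivial_rel st G st_p st_len (tot_bdd Y1 C) (XC C)
        (GG_lim Y1 C) f φ h1 h2 h3)
    obtain ⟨c, hc⟩ := htr
    -- transfer between the two oracles
    have o1 : KT.Opt G (KT.KG G) := KT.Opt_KG G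
    have o2 : KT.Opt (fun n => (A n).toNat) (KT.KG G) := KT.Opt_of_TR hGA hAG o1
    have o3 : KT.Opt (fun n => (A n).toNat) (KT.KG (fun n => (A n).toNat)) := KT.Opt_KG _
    obtain ⟨c1, hc1⟩ := o3.2.2 _ o2.1 o2.2.1
    obtain ⟨c2, hc2⟩ := o2.2.2 _ o3.1 o3.2.1
    refine ⟨c1 + c + c2, fun n => ?_⟩
    have a1 := hc1 (Encodable.encode (XC C n))
    have a2 := hc n
    have a3 := hc2 n
    omega

end Pool.Agent.L5helper75.AP
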