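import Pool.Agent.L5helper75.AP.Cost

set_option autoImplicit false

/-! A function above a given oracle `Y` relative to which a given set `C`, not computable from `Y`,
is K-trivial but which does not compute `C`: the construction. -/

namespace Pool.Agent.L5helper75.AP

open Nat.Partrec (Code)
open Filter
open Pool.Agent.Helper743
open Pool.Agent.Helper743.PR (evT evR evR_spec ev_list)
open Pool.Agent.Helper743.AC (wN massN kk wR massR MR wN_p massN_p wN_cast massN_cast
  mass_le_iff wR_mono wR_nonneg massR_mono MR_mono MR_le MR_nonneg fsum_p pow_p geo_le lst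
  lst_p lst_concat outp outp_p conv)
open Pool.Agent.Helper743.KT (cR totR cR_nonneg totR_nonneg totR_concat)

variable (Y : ℕ → ℕ) (C : ℕ → Bool)

/-- initial segments of `C` -/
def XC (n : ℕ) : List Bool := (List.range n).map C

lemma XC_len (n : ℕ) : (XC C n).length = n := by simp [XC]

lemma XC_take {w w' : ℕ} (h : w' ≤ w) : XC C w' = (XC C w).take w' := by
  unfold XC
  rw [← List.map_take, List.take_range, min_eq_left h]

/-- the first components of the entries agree with `Y` -/
def Con (σ : List ℕ) : Prop := ∀ i < σ.length, ((σ[i]?).getD 0).unpair.1 = Y i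

/-- the correct entry at the position `n` -/
def ce (n : ℕ) : ℕ := Nat.pair (Y n) (Encodable.encode (XC C (n + 1)))

lemma st_ce {n w : ℕ} (h : w ≤ n + 1) : st (ce Y C n) w = XC C w := by
  unfold st ce
  rw [Nat.unpair_pair]
  simp only [Encodable.encodek, Option.getD_some]
  rw [XC_take C h]
  apply List.ext_getElem
  · simp [XC_len, h]
  · intro i h1 h2
    simp only [List.length_map, List.length_range] at h1
    have h3 : i < (XC C (n + 1)).length := by rw [XC_len]; omega
    simp only [List.getElem_map, List.getElem_range, List.getElem_take]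
    rw [List.getElem?_eq_getElem h3]
    rfl

lemma Con_app {σ : List ℕ} (h : Con Y σ) {t : ℕ} (ht : t.unpair.1 = Y σ.length) :
    Con Y (σ ++ [t]) := by
  intro i hi
  simp only [List.length_append, List.length_singleton] at hi
  by_cases h1 : i < σ.length
  · rw [List.getElem?_append_left h1]; exact h i h1
  · have : i = σ.length := by omega
    subst this
    simp [ht]

lemma Con_ce {σ : List ℕ} (h : Con Y σ) : Con Y (σ ++ [ce Y C σ.length]) := by
  apply Con_app Y h
  unfold ce
  rw [Nat.unpair_pair]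

abbrev St := List ℕ × List ℕ

def good (s : ℕ) (σ ρ : List ℕ) : Prop :=
  Con Y (σ ++ ρ) ∧ al s.unpair.1 σ ρ ∧
    ∃ x y, outp s.unpair.1 (σ ++ ρ) x y ∧ y ≠ (C x).toNat

def acts (s : ℕ) (u : St) : Prop := s.unpair.1 ∉ u.2 ∧ ∃ ρ, good Y C s u.1 ρ

noncomputable def ext (s : ℕ) (u : St) : List ℕ :=
  open Classical in if h : acts Y C s u then h.2.choose else []

noncomputable def stepR (s : ℕ) (u : St) : St :=
  open Classical in
  (u.1 ++ ext Y C s u ++ [ce Y C (u.1 ++ ext Y C s u).length],
    if acts Y C s u then s.unpair.1 :: u.2 else u.2)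

noncomputable def runR (s : ℕ) : St := Nat.rec ([], []) (fun s u => stepR Y C s u) s

noncomputable def sg (s : ℕ) : List ℕ := (runR Y C s).1
noncomputable def dd (s : ℕ) : List ℕ := (runR Y C s).2
noncomputable def rh (s : ℕ) : List ℕ := ext Y C s (runR Y C s)
noncomputable def ts (s : ℕ) : ℕ := ce Y C (sg Y C s ++ rh Y C s).length

lemma sg_zero : sg Y C 0 = [] := rfl
lemma dd_zero : dd Y C 0 = [] := rfl

lemma sg_succ' (s : ℕ) : sg Y C (s + 1) = sg Y C s ++ rh Y C s ++ [ts Y C s] := rfl

lemma dd_succ_pos {s : ℕ} (h : acts Y C s (runR Y C s)) :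
    dd Y C (s + 1) = s.unpair.1 :: dd Y C s := by
  classical
  show (stepR Y C s (runR Y C s)).2 = _
  unfold stepR
  simp only
  rw [if_pos h]; rfl

lemma dd_succ_neg {s : ℕ} (h : ¬ acts Y C s (runR Y C s)) : dd Y C (s + 1) = dd Y C s := by
  classical
  show (stepR Y C s (runR Y C s)).2 = _
  unfold stepR
  simp only
  rw [if_neg h]; rfl

lemma sg_prefix_succ (s : ℕ) : sg Y C s <+: sg Y C (s + 1) := by
  rw [sg_succ', List.append_assoc]
  exact List.prefix_append _ _

lemma sg_mono {s s' : ℕ} (h : s ≤ s') : sg Y C s <+: sg Y C s' := by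
  induction s', h using Nat.le_induction with
  | base => exact List.prefix_refl _
  | succ n _ ih => exact ih.trans (sg_prefix_succ Y C n)

lemma sg_length_succ (s : ℕ) : (sg Y C s).length < (sg Y C (s + 1)).length := by
  rw [sg_succ']; simp

lemma sg_length (s : ℕ) : s ≤ (sg Y C s).length := by
  induction s with
  | zero => exact Nat.zero_le _
  | succ s ih => have := sg_length_succ Y C s; omega

lemma sg_long (n : ℕ) : ∃ s, n < (sg Y C s).length := ⟨n + 1, sg_length Y C (n + 1)⟩

noncomputable def GG (n : ℕ) : ℕ :=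
  open Classical in ((sg Y C (Nat.find (sg_long Y C n)))[n]?).getD 0

lemma sg_get {s n : ℕ} (h : n < (sg Y C s).length) : (sg Y C s)[n]? = some (GG Y C n) := by
  classical
  have h1 := Nat.find_spec (sg_long Y C n)
  have h2 : Nat.find (sg_long Y C n) ≤ s := Nat.find_min' _ h
  obtain ⟨ρ, hρ⟩ := sg_mono Y C h2
  have h3 : (sg Y C s)[n]? = (sg Y C (Nat.find (sg_long Y C n)))[n]? := by
    rw [← hρ, List.getElem?_append_left h1]
  rw [h3]
  unfold GG
  rw [List.getElem?_eq_getElem h1]
  rfl

lemma sg_eq_pre (s : ℕ) : sg Y C s = pre (GG Y C) (sg Y C s).length := by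
  apply List.ext_getElem?
  intro i
  rw [pre_getElem?]
  by_cases h : i < (sg Y C s).length
  · rw [if_pos h, sg_get Y C h]
  · rw [if_neg h, List.getElem?_eq_none (by omega)]

/-! the extensions made -/

lemma rh_neg {s : ℕ} (h : ¬ acts Y C s (runR Y C s)) : rh Y C s = [] := by
  unfold rh ext
  rw [dif_neg h]

lemma rh_good {s : ℕ} (h : acts Y C s (runR Y C s)) : good Y C s (sg Y C s) (rh Y C s) := by
  unfold rh ext
  rw [dif_pos h]
  exact h.2.choose_spec

lemma rh_resp (s : ℕ) : resp (sg Y C s) (rh Y C s) := by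
  by_cases h : acts Y C s (runR Y C s)
  · exact (rh_good Y C h).2.1.1
  · rw [rh_neg Y C h]
    intro t ht
    simp at ht

lemma sg_Con (s : ℕ) : Con Y (sg Y C s) := by
  induction s with
  | zero => intro i hi; rw [sg_zero] at hi; simp at hi
  | succ s ih =>
    rw [sg_succ']
    apply Con_ce
    by_cases h : acts Y C s (runR Y C s)
    · exact (rh_good Y C h).1
    · rw [rh_neg Y C h, List.append_nil]; exact ih

lemma GG_fst (n : ℕ) : (GG Y C n).unpair.1 = Y n := by
  obtain ⟨s, hs⟩ := sg_long Y C n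
  have h1 := sg_Con Y C s n hs
  rw [sg_get Y C hs] at h1
  exact h1

lemma sg_corr (s : ℕ) : st (lst (sg Y C s)) (sg Y C s).length = XC C (sg Y C s).length := by
  cases s with
  | zero => rw [sg_zero]; simp [st, XC]
  | succ s =>
    rw [sg_succ', lst_concat]
    apply st_ce
    simp only [List.length_append, List.length_cons, List.length_nil]
    omega

lemma st_ts (s w : ℕ) (h : w ≤ (sg Y C s ++ rh Y C s).length + 1) :
    st (ts Y C s) w = XC C w := st_ce Y C h

lemma ts_corr (s : ℕ) :
    st (ts Y C s) (sg Y C s).length = st (lst (sg Y C s)) (sg Y C s).length := by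
  rw [sg_corr]
  apply st_ts
  simp; omega

lemma ext_resp {s : ℕ} {t : ℕ} (h : t ∈ rh Y C s ++ [ts Y C s]) :
    st t (sg Y C s).length = XC C (sg Y C s).length := by
  rcases List.mem_append.1 h with h | h
  · have h1 := rh_resp Y C s
    unfold resp at h1
    rw [h1 t h, sg_corr]
  · rw [List.mem_singleton] at h
    subst h
    rw [ts_corr, sg_corr]

/-- origin of an entry -/
lemma entry {s n : ℕ} (h : (sg Y C s).length ≤ n) : ∃ u, s ≤ u ∧ (sg Y C u).length ≤ n ∧
    n < (sg Y C (u + 1)).length ∧ GG Y C n ∈ rh Y C u ++ [ts Y C u] := by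
  classical
  have h1 := Nat.find_spec (sg_long Y C n)
  have h2 : s < Nat.find (sg_long Y C n) := by
    by_contra hle
    push Not at hle
    have := (sg_mono Y C hle).length_le
    omega
  obtain ⟨u, hu⟩ : ∃ u, Nat.find (sg_long Y C n) = u + 1 :=
    ⟨Nat.find (sg_long Y C n) - 1, by omega⟩
  have h3 : (sg Y C u).length ≤ n := by
    have := Nat.find_min (sg_long Y C n) (m := u) (by omega)
    omega
  rw [hu] at h1
  refine ⟨u, by omega, h3, h1, ?_⟩
  have h5 := sg_get Y C h1
  rw [sg_succ', List.append_assoc, List.getElem?_append_right h3] at h5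
  exact List.mem_of_getElem? h5

lemma st_XC_mono {t w w' : ℕ} (h : w' ≤ w) (he : st t w = XC C w) : st t w' = XC C w' := by
  rw [st_take h, he, ← XC_take C h]

lemma GG_resp {s n : ℕ} (h : (sg Y C s).length ≤ n) :
    st (GG Y C n) (sg Y C s).length = XC C (sg Y C s).length := by
  obtain ⟨u, h1, h2, h3, h4⟩ := entry Y C h
  exact st_XC_mono C (sg_mono Y C h1).length_le (ext_resp Y C h4)

lemma GG_lim (n : ℕ) : ∀ᶠ N in atTop, st (GG Y C N) n = XC C n := by
  filter_upwards [eventually_ge_atTop (sg Y C n).length] with N hN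
  exact st_XC_mono C (sg_length Y C n) (GG_resp Y C hN)

lemma pre_split {s n : ℕ} (h : (sg Y C s).length ≤ n) :
    ∃ ρ, pre (GG Y C) n = sg Y C s ++ ρ ∧ resp (sg Y C s) ρ := by
  obtain ⟨ρ, hρ⟩ := pre_prefix (GG Y C) h
  rw [← sg_eq_pre] at hρ
  refine ⟨ρ, hρ.symm, fun m hm => ?_⟩
  obtain ⟨i, hi⟩ := List.mem_iff_getElem?.1 hm
  have h1 : (pre (GG Y C) n)[(sg Y C s).length + i]? = some m := by
    rw [← hρ, List.getElem?_append_right (by omega), Nat.add_sub_cancel_left, hi]
  rw [pre_getElem?] at h1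
  by_cases h2 : (sg Y C s).length + i < n
  · rw [if_pos h2] at h1
    rw [← Option.some.inj h1, sg_corr]
    exact GG_resp Y C (Nat.le_add_right _ _)
  · rw [if_neg h2] at h1; simp at h1

/-! each requirement acts at most once -/

lemma dd_mono {s s' : ℕ} (h : s ≤ s') : ∀ e ∈ dd Y C s, e ∈ dd Y C s' := by
  induction s', h using Nat.le_induction with
  | base => exact fun e h => h
  | succ n _ ih =>
    intro e he
    by_cases h1 : acts Y C n (runR Y C n)
    · rw [dd_succ_pos Y C h1]; exact List.mem_cons_of_mem _ (ih e he)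
    · rw [dd_succ_neg Y C h1]; exact ih e he

lemma dd_mem {s e : ℕ} (h : e ∈ dd Y C s) :
    ∃ s', acts Y C s' (runR Y C s') ∧ s'.unpair.1 = e := by
  induction s with
  | zero => rw [dd_zero] at h; simp at h
  | succ s ih =>
    by_cases h1 : acts Y C s (runR Y C s)
    · rw [dd_succ_pos Y C h1, List.mem_cons] at h
      rcases h with h | h
      · exact ⟨s, h1, h.symm⟩
      · exact ih h
    · rw [dd_succ_neg Y C h1] at h; exact ih h

lemma acts_once (e : ℕ) : ∀ᶠ s in atTop, ¬ (acts Y C s (runR Y C s) ∧ s.unpair.1 = e) := by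
  by_cases h : ∃ s, acts Y C s (runR Y C s) ∧ s.unpair.1 = e
  · obtain ⟨s, h1, h2⟩ := h
    filter_upwards [eventually_gt_atTop s] with s' hs'
    rintro ⟨h3, h4⟩
    apply h3.1
    rw [h4, ← h2]
    apply dd_mono Y C hs'
    rw [dd_succ_pos Y C h1]
    exact List.mem_cons_self
  · push Not at h
    exact Eventually.of_forall (fun s hs => h s hs.1 hs.2)

lemma acts_late (i : ℕ) : ∃ s0, ∀ s, s0 ≤ s → acts Y C s (runR Y C s) → i ≤ s.unpair.1 := by
  have h := ev_list (L := List.range i)
    (P := fun s e => ¬ (acts Y C s (runR Y C s) ∧ s.unpair.1 = e))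
    (fun e _ => acts_once Y C e)
  obtain ⟨s0, h0⟩ := eventually_atTop.1 h
  refine ⟨s0, fun s hs hact => ?_⟩
  by_contra hlt
  push Not at hlt
  exact h0 s hs s.unpair.1 (List.mem_range.2 hlt) ⟨hact, rfl⟩

/-! the total cost is finite -/

lemma tot_acts {i s : ℕ} (h : acts Y C s (runR Y C s)) (hi : i ≤ s.unpair.1) :
    totR st i (sg Y C (s + 1)) ≤ totR st i (sg Y C s) + (1 / 2) ^ s.unpair.1 := by
  have h1 := (al_iff.1 (rh_good Y C h).2.1).2 i hi
  have h2 := tot_step (i := i) (rh_resp Y C s) (ts_corr Y C s)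
  rw [sg_succ']
  linarith

lemma tot_nacts {i s : ℕ} (h : ¬ acts Y C s (runR Y C s)) :
    totR st i (sg Y C (s + 1)) ≤ totR st i (sg Y C s) := by
  have h2 := tot_step (i := i) (rh_resp Y C s) (ts_corr Y C s)
  rw [sg_succ']
  rw [rh_neg Y C h, List.append_nil] at h2 ⊢
  linarith

lemma tot_late {i s0 : ℕ} (h0 : ∀ s, s0 ≤ s → acts Y C s (runR Y C s) → i ≤ s.unpair.1) (s : ℕ)
    (hs : s0 ≤ s) : totR st i (sg Y C s) ≤ totR st i (sg Y C s0) +
      ∑ e ∈ (dd Y C s).toFinset, ((1 : ℝ) / 2) ^ e := by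
  induction s, hs using Nat.le_induction with
  | base =>
    have : 0 ≤ ∑ e ∈ (dd Y C s0).toFinset, ((1 : ℝ) / 2) ^ e :=
      Finset.sum_nonneg (fun e _ => by positivity)
    linarith
  | succ s hs ih =>
    by_cases h1 : acts Y C s (runR Y C s)
    · rw [dd_succ_pos Y C h1, List.toFinset_cons, Finset.sum_insert (by
        rw [List.mem_toFinset]; exact h1.1)]
      have := tot_acts Y C h1 (h0 s hs h1)
      linarith
    · rw [dd_succ_neg Y C h1]
      have := tot_nacts Y C (i := i) h1
      linarith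

lemma tot_bdd (i : ℕ) : ∃ B : ℝ, ∀ n, totR st i (pre (GG Y C) n) ≤ B := by
  obtain ⟨s0, h0⟩ := acts_late Y C i
  refine ⟨totR st i (sg Y C s0) + 2, fun n => ?_⟩
  have h1 : pre (GG Y C) n <+: sg Y C (max n s0) := by
    rw [sg_eq_pre]
    exact pre_prefix _ (le_trans (le_max_left _ _) (sg_length Y C (max n s0)))
  have h2 := totR_mono (i := i) h1
  have h3 := tot_late Y C h0 (max n s0) (le_max_right _ _)
  have h4 := geo_le (dd Y C (max n s0)).toFinset
  linarith

lemma q_tail (i : ℕ) {ε : ℝ} (hε : 0 < ε) : ∃ N, ∀ m n, N ≤ m → m ≤ n →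
    qR i (pre (GG Y C) n) ≤ qR i (pre (GG Y C) m) + ε := by
  obtain ⟨B, hB⟩ := tot_bdd Y C i
  have hb : BddAbove (Set.range (fun n => qR i (pre (GG Y C) n))) := by
    refine ⟨B + 1, ?_⟩
    rintro _ ⟨n, rfl⟩
    exact add_le_add (hB n) (MR_le _ _)
  obtain ⟨N, hN⟩ := exists_lt_of_lt_ciSup (f := fun n => qR i (pre (GG Y C) n))
    (show (⨆ n, qR i (pre (GG Y C) n)) - ε < ⨆ n, qR i (pre (GG Y C) n) by linarith)
  refine ⟨N, fun m n hm _ => ?_⟩
  have h1 := le_ciSup hb n
  have h3 := qR_mono (i := i) (pre_prefix (GG Y C) hm)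
  linarith

lemma q_tails (e : ℕ) : ∃ N, ∀ m n, N ≤ m → m ≤ n → ∀ i, i ≤ e →
    qR i (pre (GG Y C) n) ≤ qR i (pre (GG Y C) m) + (1 / 2) ^ e := by
  have hε : (0 : ℝ) < (1 / 2) ^ e := by positivity
  choose f hf using fun i => q_tail Y C i hε
  refine ⟨(Finset.range (e + 1)).sup f, fun m n hm hmn i hi => ?_⟩
  apply hf i m n _ hmn
  refine le_trans ?_ hm
  exact Finset.le_sup (f := f) (Finset.mem_range.2 (by omega))

end Pool.Agent.L5helper75.AP
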